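import Pool.Agent.helper4.PM.SpecM
import Pool.Agent.helper77.DH.CLS

set_option autoImplicit false

open Complex Metric Set Filter Topology MeasureTheory
open Pool.Agent.helper98.ILF
open WP (it)
open HY (UD T S hd UN RM)

noncomputable section

namespace PM

theorem MLB (hLND : DH.LND_stmt) (hMOB : HY.MOB_stmt) (hHDI : HY.HDI_stmt) : MLB_stmt := by
  obtain ⟨θ₁, hθ₁, hL⟩ := hLND
  refine ⟨θ₁, hθ₁, ?_⟩
  intro ρ ε hρ0 hρ1 hε0 hε1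
  set η₀ : ℝ := (1 - ρ ^ 2) * (19 / 800) with hη₀
  have hη₀0 : 0 < η₀ := by
    have : 0 < 1 - ρ ^ 2 := by nlinarith
    positivity
  have hη₀1 : η₀ < 1 := by
    have : 1 - ρ ^ 2 ≤ 1 := by nlinarith
    rw [hη₀]; nlinarith
  have hεη : ε * η₀ < 1 := by nlinarith
  have hεη0 : 0 < ε * η₀ := mul_pos hε0 hη₀0
  refine ⟨1 / (ε * η₀), ?_, ?_⟩
  · rw [le_div_iff₀ hεη0]; linarith
  intro F χ w hFd hFm hχ hχ0 hwρ hFw hχB hχd
  have hwUD : w ∈ UD := mem_ball_zero_iff.2 (lt_of_le_of_lt hwρ hρ1)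
  have hGd : DifferentiableOn ℂ (fun x => F (χ x)) UD := hFd.comp hχ.dif hχ.map
  have hG0 : F (χ 0) = F w := by rw [hχ0]
  obtain ⟨g, hgd, hgi, hgb, hgr⟩ := hL (fun x => F (χ x)) ε hε0 hGd hχB (by show ‖F (χ 0)‖ ≤ ε; rw [hG0]; exact hFw) (by
    show ((2 * ε) ^ 2 - ‖F (χ 0)‖ ^ 2) / (2 * ε) * Real.exp (-θ₁) ≤ ‖deriv (fun x => F (χ x)) 0‖
    rw [hG0]
    exact hχd)
  have hgUD : ∀ y ∈ UD, g y ∈ UD := fun y hy => mem_ball_zero_iff.2 (lt_of_le_of_lt (hgb y hy) (by norm_num))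
  have h0UD : (0 : ℂ) ∈ UD := by simp [UD]
  set w₁ : ℂ := χ (g 0) with hw₁
  have hw₁UD : w₁ ∈ UD := hχ.map (hgUD 0 h0UD)
  have hSP : ‖T w w₁‖ ≤ 9 / 10 := le_trans (DH.CLS_sp hMOB hχ.dif hχ.map hwUD hχ0 (hgUD 0 h0UD)) (hgb 0 h0UD)
  have hSw : S w (T w w₁) = w₁ := ((hMOB w hwUD).1 w₁ hw₁UD).2.2.1
  have hTUD : T w w₁ ∈ UD := ((hMOB w hwUD).1 w₁ hw₁UD).1
  have hfar := DH.CLS_far hMOB hwUD hTUD hwρ hρ1 hSP
  rw [hSw] at hfar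
  have hfar2 : 2 * η₀ ≤ 1 - ‖w₁‖ ^ 2 := by rw [hη₀]; linarith
  have hw₁1 : ‖w₁‖ < 1 := mem_ball_zero_iff.1 hw₁UD
  have hw₁η : ‖w₁‖ ≤ 1 - η₀ := by nlinarith [norm_nonneg w₁]
  have hFw1 : DifferentiableAt ℂ F w₁ := hFd.differentiableAt (isOpen_ball.mem_nhds hw₁UD)
  have hχg : DifferentiableOn ℂ (fun y => χ (g y)) UD := hχ.dif.comp hgd hgUD
  have hχg0 : DifferentiableAt ℂ (fun y => χ (g y)) 0 := hχg.differentiableAt (isOpen_ball.mem_nhds h0UD)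
  have hKinv : 1 / (1 / (ε * η₀)) = ε * η₀ := by rw [one_div_one_div]
  refine ⟨fun y => χ (g y), ⟨hχg, ?_, ?_⟩, ?_, ?_, ?_⟩
  · intro y hy y' hy' he
    exact hgi hy hy' (hχ.inj (hgUD y hy) (hgUD y' hy') he)
  · intro y hy
    exact hχ.map (hgUD y hy)
  · intro y hy
    have h2 := hgr y hy
    have h3 : F (χ (g y)) = (ε : ℂ) / 2 * y := h2
    show F (χ (g y)) = ((ε / 2 : ℝ) : ℂ) * y
    rw [h3]
    push_cast
    rfl
  · show ‖χ (g 0)‖ ≤ 1 - 1 / (1 / (ε * η₀))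
    rw [hKinv]
    have : ε * η₀ ≤ η₀ := by nlinarith
    linarith
  · rw [hKinv]
    have hderF : deriv F w₁ * deriv (fun y => χ (g y)) 0 = ε / 2 := by
      have h1 := deriv_comp (x := (0 : ℂ)) (h₂ := F) (h := fun y => χ (g y)) hFw1 hχg0
      have h2 : (F ∘ fun y => χ (g y)) =ᶠ[𝓝 0] fun y => (ε / 2 : ℂ) * y := by
        filter_upwards [isOpen_ball.mem_nhds h0UD] with y hy
        exact hgr y hy
      rw [h2.deriv_eq] at h1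
      have h3 : deriv (fun y : ℂ => (ε / 2 : ℂ) * y) 0 = ε / 2 := by
        rw [deriv_const_mul _ differentiableAt_id]
        simp
      rw [h3] at h1
      exact h1.symm
    have hnF : ‖deriv F w₁‖ * (1 - ‖w₁‖ ^ 2) ≤ 1 := DH.CLS_der hHDI hFd hFm hw₁UD
    have hnorm : ‖deriv F w₁‖ * ‖deriv (fun y => χ (g y)) 0‖ = ε / 2 := by
      rw [← norm_mul, hderF]
      rw [norm_div, Complex.norm_real, Real.norm_of_nonneg hε0.le]
      norm_num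
    have hpos : 0 < 1 - ‖w₁‖ ^ 2 := by linarith
    have hx : 0 ≤ ‖deriv (fun y => χ (g y)) 0‖ := norm_nonneg _
    calc ε * η₀ = ε / 2 * (2 * η₀) := by ring
      _ ≤ ε / 2 * (1 - ‖w₁‖ ^ 2) := by gcongr
      _ = (‖deriv F w₁‖ * (1 - ‖w₁‖ ^ 2)) * ‖deriv (fun y => χ (g y)) 0‖ := by rw [← hnorm]; ring
      _ ≤ 1 * ‖deriv (fun y => χ (g y)) 0‖ := by gcongr
      _ = _ := one_mul _

end PM
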